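import Pool.Agent.H77.SSA.GDefs

/-! # SSA, module CHO: the generic quotient satisfies the axiom of choice -/

set_option linter.unusedVariables false
set_option synthInstance.maxSize 100000

namespace SSA

open SW CU CUR

section

variable {P : Type} [Preorder P]

/-- the components of a class which is the ordered pair and has the name `opN a b` -/
theorem cho_op {ν : ℕ → HN P Tg} {c : ℕ → P} (hg : Gn ν c) {m i j : ℕ} {a b : HN P Tg}
    (hm : ν m = opN a b) (h : IsOP (qc ν c m) (qc ν c i) (qc ν c j)) :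
    ∃ k, EqF (ν i).1 a.1 (c k) ∧ EqF (ν j).1 b.1 (c k) := by
  obtain ⟨k, hk⟩ := (fs_truth (fun N _ (w : Fin 3 → N) => IsOP (w 0) (w 1) (w 2)) ν c hg
    ![m, i, j]).1 h
  have key : FS (fun N _ (w : Fin 4 → N) => w 0 = w 1 ∧ w 2 = w 3) (c k)
      ![ν i, a, ν j, b] := by
    refine fs_of (fun N _ (w : Fin 4 → N) => w 0 = w 1 ∧ w 2 = w 3)
      (fun l => if l = 0 then opN a b else if l = 1 then pairN a a else pairN a b) ?_
    intro ν' c' hg' hk' w hw u hu
    have _ : ZF (GQ ν' c') := gn_zf hg'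
    have w0 : ν' (w 0) = ν i := hw 0
    have w1 : ν' (w 1) = a := hw 1
    have w2 : ν' (w 2) = ν j := hw 2
    have w3 : ν' (w 3) = b := hw 3
    have u0 : ν' (u 0) = opN a b := hu 0
    have u1 : ν' (u 1) = pairN a a := hu 1
    have u2 : ν' (u 2) = pairN a b := hu 2
    have h1 : IsOP (qc ν' c' (u 0)) (qc ν' c' (w 0)) (qc ν' c' (w 2)) := by
      refine hk ν' c' hg' hk' ![u 0, w 0, w 2] fun l => ?_
      refine Fin.cases ?_ (fun l => ?_) l
      · exact u0.trans hm.symm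
      refine Fin.cases ?_ (fun l => ?_) l
      · exact w0
      refine Fin.cases ?_ (fun l => l.elim0) l
      exact w2
    have h2 : IsOP (qc ν' c' (u 0)) (qc ν' c' (w 1)) (qc ν' c' (w 3)) := by
      refine ⟨qc ν' c' (u 1), qc ν' c' (u 2), fun x => ?_, fun x => ?_, fun x => ?_⟩
      · rw [gn_pairN hg' (i := w 1) (j := w 1) (by rw [u1, w1]), or_self]
      · rw [gn_pairN hg' (i := w 1) (j := w 3) (by rw [u2, w1, w3])]
      · rw [gn_pairN hg' (i := u 1) (j := u 2) (by rw [u0, u1, u2]; rfl)]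
    rw [isOP_iff] at h1 h2
    exact opair_inj.1 (h1.symm.trans h2)
  refine ⟨k, ?_, ?_⟩
  · exact (fs_eq (0 : Fin 4) 1 (c k) ![ν i, a, ν j, b]).1
      fun ν' c' hg' hk' w hw => (key ν' c' hg' hk' w hw).1
  · exact (fs_eq (2 : Fin 4) 3 (c k) ![ν i, a, ν j, b]).1
      fun ν' c' hg' hk' w hw => (key ν' c' hg' hk' w hw).2

/-- a forced membership of a pair gives the pair in the quotient -/
theorem cho_ex {ν : ℕ → HN P Tg} {c : ℕ → P} (hg : Gn ν c) {m j l : ℕ} {a : HN P Tg}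
    (h : MemF (opN a (ν j)).1 (ν m).1 (c l)) : ∃ α, PairIn α (qc ν c j) (qc ν c m) := by
  have h1 : FS (fun N _ (w : Fin 2 → N) => ∃ α, PairIn α (w 0) (w 1)) (c l) ![ν j, ν m] := by
    refine (fs_ex (fun N _ α (w : Fin 2 → N) => PairIn α (w 0) (w 1))).2
      fun q hq => ⟨q, le_rfl, a, ?_⟩
    refine fs_of (fun N _ (w : Fin 3 → N) => PairIn (w 0) (w 1) (w 2))
      (fun l => if l = 0 then opN a (ν j) else if l = 1 then pairN a a else pairN a (ν j)) ?_
    intro ν' c' hg' hk' w hw u hu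
    have w0 : ν' (w 0) = a := hw 0
    have w1 : ν' (w 1) = ν j := hw 1
    have w2 : ν' (w 2) = ν m := hw 2
    have u0 : ν' (u 0) = opN a (ν j) := hu 0
    have u1 : ν' (u 1) = pairN a a := hu 1
    have u2 : ν' (u 2) = pairN a (ν j) := hu 2
    refine ⟨qc ν' c' (u 0), ⟨qc ν' c' (u 1), qc ν' c' (u 2), fun x => ?_, fun x => ?_,
      fun x => ?_⟩, ?_⟩
    · rw [gn_pairN hg' (i := w 0) (j := w 0) (by rw [u1, w0]), or_self]
    · rw [gn_pairN hg' (i := w 0) (j := w 1) (by rw [u2, w0, w1])]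
    · rw [gn_pairN hg' (i := u 1) (j := u 2) (by rw [u0, u1, u2]; rfl)]
    · rw [gn_mem_iff hg', u0, w2]
      obtain ⟨k', hk'⟩ := hk'
      exact ⟨k', memF_mono h (hk'.trans hq)⟩
  exact h1 ν c hg ⟨l, le_rfl⟩ ![j, m] fun i => by
    refine Fin.cases rfl (fun i => ?_) i
    refine Fin.cases rfl (fun i => i.elim0) i

/-- the name of the set of all pairs (number of `z`, `z`), `z` in the union of `X` -/
noncomputable def choN (X : HN P Tg) [LinearOrder (Σ i : X.1.I, (X.1.el i).I)]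
    [WellFoundedLT (Σ i : X.1.I, (X.1.el i).I)] : HN P Tg :=
  relN (Σ i : X.1.I, (X.1.el i).I) (fun p w => p ≤ X.1.cd w.1 ∧ p ≤ (X.1.el w.1).cd w.2)
    (fun w => opN (chkH w) (hn ((X.1.el w.1).el w.2)))

/-- `g` numbers the members of the members of `x` -/
def ChoR (N : Type) [SetStr N] (g x : N) : Prop :=
  (∀ y z, E y x → E z y → ∃ α, PairIn α z g) ∧
    ∀ α β z z', PairIn α z g → PairIn β z' g → E α β ∨ (α = β ∧ z = z') ∨ E β α

theorem choN_spec (X : HN P Tg) [LinearOrder (Σ i : X.1.I, (X.1.el i).I)]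
    [WellFoundedLT (Σ i : X.1.I, (X.1.el i).I)] {ν : ℕ → HN P Tg} {c : ℕ → P} (hg : Gn ν c)
    {m w : ℕ} (hm : ν m = choN X) (hw : ν w = X) : ChoR (GQ ν c) (qc ν c m) (qc ν c w) := by
  have hrep : ∀ α z : GQ ν c, PairIn α z (qc ν c m) →
      ∃ (a b k : ℕ) (t : Σ i : X.1.I, (X.1.el i).I), α = qc ν c a ∧ z = qc ν c b ∧
        EqF (ν a).1 (chk t) (c k) ∧ EqF (ν b).1 ((X.1.el t.1).el t.2) (c k) := by
    rintro α z ⟨u, hu, hum⟩
    obtain ⟨a, rfl⟩ := gn_surj α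
    obtain ⟨b, rfl⟩ := gn_surj z
    obtain ⟨m', l, i, e1, e2, rfl⟩ := (gn_mem_iff' hg u m).1 hum
    have gen : ∀ (B : HN P Tg), B = choN X → ∀ i : B.1.I, ∃ t : Σ i : X.1.I, (X.1.el i).I,
        B.1.el i = (opN (chkH t) (hn ((X.1.el t.1).el t.2))).1 := by
      rintro _ rfl i
      exact ⟨i.1.2, rfl⟩
    obtain ⟨t, ht⟩ := gen _ hm i
    obtain ⟨k, h1, h2⟩ := cho_op hg (m := m') (i := a) (j := b)
      (a := chkH t) (b := hn ((X.1.el t.1).el t.2)) (Subtype.ext (e1.symm.trans ht)) hu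
    exact ⟨a, b, k, t, rfl, rfl, h1, h2⟩
  constructor
  · intro y z hy hz
    obtain ⟨a, l, i, e1, e2, rfl⟩ := (gn_mem_iff' hg y w).1 hy
    obtain ⟨b, l', j, f1, f2, rfl⟩ := (gn_mem_iff' hg z a).1 hz
    have l1 := le_of_anti hg.anti l (max l l') (le_max_left _ _)
    have l2 := le_of_anti hg.anti l' (max l l') (le_max_right _ _)
    have gen : ∀ (X' a' b' : Nm P), X' = X.1 → ∀ i : X'.I, X'.el i = a' → ∀ j : a'.I,
        a'.el j = b' → c (max l l') ≤ X'.cd i → c (max l l') ≤ a'.cd j →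
        ∃ t : Σ i : X.1.I, (X.1.el i).I, (X.1.el t.1).el t.2 = b' ∧ c (max l l') ≤ X.1.cd t.1 ∧
          c (max l l') ≤ (X.1.el t.1).cd t.2 := by
      rintro _ _ _ rfl i rfl j rfl h1 h2
      exact ⟨⟨i, j⟩, rfl, h1, h2⟩
    obtain ⟨t, ht, t1, t2⟩ := gen _ _ _ (by rw [hw]) i e1 j f1 (l1.trans e2) (l2.trans f2)
    refine cho_ex hg (l := max l l') (a := chkH t) ?_
    rw [hm]
    have : ν b = hn ((X.1.el t.1).el t.2) := Subtype.ext ht.symm
    rw [this]
    exact memF_intro (b := (choN X).1) ⟨(c (max l l'), t), t1, t2⟩ le_rfl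
  · intro α β z z' h1 h2
    obtain ⟨a, b, k, t, rfl, rfl, h3, h4⟩ := hrep α z h1
    obtain ⟨a', b', k', t', rfl, rfl, h3', h4'⟩ := hrep β z' h2
    have l1 := le_of_anti hg.anti k (max k k') (le_max_left _ _)
    have l2 := le_of_anti hg.anti k' (max k k') (le_max_right _ _)
    have hmem : ∀ (s s' : Σ i : X.1.I, (X.1.el i).I), s < s' → ∀ p : P,
        MemF (chk s) (chk s') p := by
      intro s s' hs p
      rw [chk_eq s']
      exact memF_famN (fun η : {η // η < s'} => (chk η.1 : Nm P)) ⟨s, hs⟩ p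
    rcases lt_trichotomy t t' with ht | rfl | ht
    · left
      rw [gn_mem_iff hg]
      exact ⟨max k k', memF_congr (eqF_symm (eqF_mono h3' l2))
        (memF_congl (eqF_symm (eqF_mono h3 l1)) (hmem t t' ht _))⟩
    · right; left
      constructor
      · rw [gn_eq_iff hg]
        exact ⟨max k k', eqF_trans (eqF_mono h3 l1) (eqF_symm (eqF_mono h3' l2))⟩
      · rw [gn_eq_iff hg]
        exact ⟨max k k', eqF_trans (eqF_mono h4 l1) (eqF_symm (eqF_mono h4' l2))⟩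
    · right; right
      rw [gn_mem_iff hg]
      exact ⟨max k k', memF_congr (eqF_symm (eqF_mono h3 l1))
        (memF_congl (eqF_symm (eqF_mono h3' l2)) (hmem t' t ht _))⟩

end

/-- module CHO -/
theorem ssa_cho : CHOStmt := by
  intro P _ ν c hg
  have hzf : ZF (GQ ν c) := gn_zf hg
  refine { toZF := hzf, choice := fun x hne hdis => ?_ }
  obtain ⟨w, rfl⟩ := gn_surj x
  obtain ⟨g, hgR⟩ : ∃ g, ChoR (GQ ν c) g (qc ν c w) := by
    refine exw (fun N _ g (w : Fin 1 → N) => ChoR N g (w 0)) (hR := by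
      unfold ChoR; infer_instance) (fun v => ?_) ν c hg ![w]
    obtain ⟨i1, i2⟩ := exists_wellFoundedLT (Σ i : (v 0).1.I, ((v 0).1.el i).I)
    exact ⟨choN (v 0), fun ν' c' hg' m w hm hw => choN_spec (v 0) hg' hm (hw 0)⟩
  obtain ⟨h1, h2⟩ := hgR
  refine ⟨sep (sUn (qc ν c w)) (fun z => ∃ y, E y (qc ν c w) ∧ E z y ∧ ∃ α, PairIn α z g ∧
    ∀ β z', E β α → E z' y → ¬ PairIn β z' g), fun y hy => ?_⟩
  obtain ⟨z0, hz0⟩ := hne y hy
  obtain ⟨α0, hα0⟩ := h1 y z0 hy hz0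
  obtain ⟨α, ⟨z, hz, hα⟩, hmin⟩ := (gn_wf hg).has_min {α | ∃ z, E z y ∧ PairIn α z g}
    ⟨α0, z0, hz0, hα0⟩
  have hmin' : ∀ β z', E β α → E z' y → ¬ PairIn β z' g :=
    fun β z' hβ hz' hp => hmin β ⟨z', hz', hp⟩ hβ
  refine ⟨z, ⟨hz, ?_⟩, fun z' hz' hc' => ?_⟩
  · rw [mem_sep, mem_sUn]
    exact ⟨⟨y, hy, hz⟩, y, hy, hz, α, hα, hmin'⟩
  · rw [mem_sep] at hc'
    obtain ⟨_, y', hy', hz'', α', hα', hmin''⟩ := hc'
    have e := hdis y y' z' hy hy' hz' hz''
    subst e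
    rcases h2 α α' z z' hα hα' with h | h | h
    · exact absurd hα (hmin'' α z h hz)
    · exact h.2.symm
    · exact absurd hα' (hmin' α' z' h hz')

end SSA
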